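import Pool.Agent.H73.D2.Lag
import Pool.Agent.H32.Dense.EntX

/-!
# Shift of the grid

`shG K s F`: the values at the shifted nodes `s + nd K β` of the polynomial with the values `F` at
the nodes. `shG_eval`: for polynomials of degree at most `K`. `shG_add`, `shG_zero`, `shG_neg`: the
shifts are a group. `shG_bd`, `shG_near`: bounds. `shf_ent`, `shf_inv`: the digits of the shifted
values are few bits given the digits of the values, and conversely.
-/

set_option autoImplicit false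

namespace Pool.D2G30

open Finset
open Pool.Agent.H49.Ent Pool.Agent.H32.Dense

/-- **The shift of the grid.** -/
noncomputable def shG (K : ℕ) {d : ℕ} (s : Fin d → ℝ) (F : (Fin d → Fin (K + 1)) → ℝ)
    (β : Fin d → Fin (K + 1)) : ℝ :=
  ∑ β' : Fin d → Fin (K + 1), ell K β' (fun i => s i + nd K β i) * F β'

/-- The values of a polynomial. -/
theorem shG_eval {K d : ℕ} (hK : 1 ≤ K) (P : MvPolynomial (Fin d) ℝ) (hP : P.totalDegree ≤ K)
    (s : Fin d → ℝ) (β : Fin d → Fin (K + 1)) :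
    shG K s (fun β' => MvPolynomial.eval (nd K β') P) β =
      MvPolynomial.eval (fun i => s i + nd K β i) P :=
  (ell_interp hK P hP _).symm

/-- The basis in one variable, as a polynomial. -/
noncomputable def lgP (K : ℕ) (j : Fin (K + 1)) (s : ℝ) : Polynomial ℝ :=
  ∏ i ∈ univ.erase j, (Polynomial.C (((j : ℕ) : ℝ) - (i : ℕ))⁻¹ *
    (Polynomial.C (K * s - (i : ℕ)) + Polynomial.C (K : ℝ) * Polynomial.X))

theorem eval_lgP (K : ℕ) (j : Fin (K + 1)) (s x : ℝ) : (lgP K j s).eval x = lg K j (s + x) := by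
  unfold lgP lg
  rw [Polynomial.eval_prod]
  refine Finset.prod_congr rfl fun i _ => ?_
  simp only [Polynomial.eval_mul, Polynomial.eval_add, Polynomial.eval_C, Polynomial.eval_X]
  rw [div_eq_mul_inv]
  ring

theorem deg_lgP (K : ℕ) (j : Fin (K + 1)) (s : ℝ) : (lgP K j s).natDegree ≤ K := by
  unfold lgP
  refine (Polynomial.natDegree_prod_le _ _).trans ?_
  refine (Finset.sum_le_card_nsmul _ _ 1 fun i _ => ?_).trans ?_
  · refine (Polynomial.natDegree_C_mul_le _ _).trans ?_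
    refine (Polynomial.natDegree_add_le _ _).trans (max_le ?_ ?_)
    · rw [Polynomial.natDegree_C]
      exact Nat.zero_le _
    · exact (Polynomial.natDegree_C_mul_le _ _).trans Polynomial.natDegree_X_le
  · rw [card_er]
    simp

/-- Interpolation of the basis. -/
theorem lg_add {K : ℕ} (hK : 1 ≤ K) (j : Fin (K + 1)) (s y : ℝ) :
    ∑ i : Fin (K + 1), lg K i y * lg K j (s + ((i : ℕ) : ℝ) / K) = lg K j (s + y) := by
  have h := lg_interp hK (lgP K j s) (deg_lgP K j s) y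
  simp only [eval_lgP] at h
  exact h.symm

theorem ell_add {K d : ℕ} (hK : 1 ≤ K) (β' : Fin d → Fin (K + 1)) (s y : Fin d → ℝ) :
    ∑ β : Fin d → Fin (K + 1), ell K β y * ell K β' (fun i => s i + nd K β i) =
      ell K β' (fun i => s i + y i) := by
  classical
  unfold ell
  calc ∑ β : Fin d → Fin (K + 1), (∏ i, lg K (β i) (y i)) * ∏ i, lg K (β' i) (s i + nd K β i)
      = ∑ β : Fin d → Fin (K + 1), ∏ i, lg K (β i) (y i) * lg K (β' i) (s i + nd K β i) :=
        Finset.sum_congr rfl fun β _ => Finset.prod_mul_distrib.symm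
    _ = ∏ i, ∑ j : Fin (K + 1), lg K j (y i) * lg K (β' i) (s i + ((j : ℕ) : ℝ) / K) := by
        rw [Finset.prod_univ_sum, Fintype.piFinset_univ]
        rfl
    _ = _ := Finset.prod_congr rfl fun i _ => lg_add hK (β' i) (s i) (y i)

/-- Two shifts. -/
theorem shG_add {K d : ℕ} (hK : 1 ≤ K) (s s' : Fin d → ℝ) (F : (Fin d → Fin (K + 1)) → ℝ) :
    shG K s' (shG K s F) = shG K (fun i => s i + s' i) F := by
  funext β
  unfold shG
  calc ∑ γ, ell K γ (fun i => s' i + nd K β i) * ∑ β', ell K β' (fun i => s i + nd K γ i) * F β'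
      = ∑ β', (∑ γ, ell K γ (fun i => s' i + nd K β i) *
          ell K β' (fun i => s i + nd K γ i)) * F β' := by
        simp only [Finset.mul_sum, Finset.sum_mul]
        rw [Finset.sum_comm]
        exact Finset.sum_congr rfl fun β' _ => Finset.sum_congr rfl fun γ _ => by ring
    _ = _ := Finset.sum_congr rfl fun β' _ => by
        rw [ell_add hK β' s (fun i => s' i + nd K β i)]
        congr 2
        funext i
        ring

theorem lg_node {K : ℕ} (hK : 1 ≤ K) (i j : Fin (K + 1)) :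
    lg K j (((i : ℕ) : ℝ) / K) = if j = i then 1 else 0 := by
  have hK0 : (K : ℝ) ≠ 0 := by
    have : (1 : ℝ) ≤ K := by exact_mod_cast hK
    linarith
  unfold lg
  split_ifs with h
  · subst h
    refine Finset.prod_eq_one fun k hk => ?_
    have hkj : k ≠ j := Finset.ne_of_mem_erase hk
    have h1 : (((j : ℕ) : ℝ) - (k : ℕ)) ≠ 0 := by
      intro h
      apply hkj
      have : ((k : ℕ) : ℝ) = (j : ℕ) := by linarith
      exact Fin.ext (by exact_mod_cast this)
    rw [mul_div_cancel₀ _ hK0, div_self h1]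
  · refine Finset.prod_eq_zero (Finset.mem_erase.2 ⟨fun hh => h hh.symm, Finset.mem_univ i⟩) ?_
    rw [mul_div_cancel₀ _ hK0, sub_self, zero_div]

theorem ell_node {K d : ℕ} (hK : 1 ≤ K) (β β' : Fin d → Fin (K + 1)) :
    ell K β' (nd K β) = if β' = β then 1 else 0 := by
  unfold ell nd
  simp only [lg_node hK]
  split_ifs with h
  · subst h
    simp
  · obtain ⟨i, hi⟩ := Function.ne_iff.1 h
    refine Finset.prod_eq_zero (Finset.mem_univ i) ?_
    rw [if_neg hi]

theorem shG_zero {K d : ℕ} (hK : 1 ≤ K) (F : (Fin d → Fin (K + 1)) → ℝ) :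
    shG K (fun _ => 0) F = F := by
  funext β
  unfold shG
  simp only [zero_add]
  have e : (fun i => nd K β i) = nd K β := rfl
  simp only [e, ell_node hK]
  simp

/-- The inverse shift. -/
theorem shG_neg {K d : ℕ} (hK : 1 ≤ K) (s : Fin d → ℝ) (F : (Fin d → Fin (K + 1)) → ℝ) :
    shG K (fun i => -s i) (shG K s F) = F := by
  rw [shG_add hK]
  have e : (fun i => s i + -s i) = fun _ : Fin d => (0 : ℝ) := by
    funext i
    ring
  rw [e, shG_zero hK]

/-! ### Bounds -/

theorem nd_mem (K : ℕ) {d : ℕ} (β : Fin d → Fin (K + 1)) (i : Fin d) :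
    0 ≤ nd K β i ∧ nd K β i ≤ 1 := by
  unfold nd
  refine ⟨by positivity, ?_⟩
  rcases Nat.eq_zero_or_pos K with h | h
  · subst h
    simp
  · rw [div_le_one (by exact_mod_cast h)]
    exact_mod_cast Nat.lt_succ_iff.1 (β i).2

theorem sh_mem {K d : ℕ} {s : Fin d → ℝ} (hs : ∀ i, |s i| ≤ 1) (β : Fin d → Fin (K + 1))
    (i : Fin d) : -1 ≤ s i + nd K β i ∧ s i + nd K β i ≤ 2 := by
  have h1 := nd_mem K β i
  have h2 := abs_le.1 (hs i)
  constructor <;> linarith [h1.1, h1.2, h2.1, h2.2]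

/-- The norm of a shift. -/
noncomputable def shC (K d : ℕ) : ℝ := (K + 1) ^ d * lgC K ^ d

theorem one_le_shC (K d : ℕ) : 1 ≤ shC K d := by
  have hK : (0 : ℝ) ≤ K := Nat.cast_nonneg K
  have h1 : (1 : ℝ) ≤ (K + 1) ^ d := one_le_pow₀ (by linarith)
  have h2 : (1 : ℝ) ≤ lgC K ^ d := one_le_pow₀ (one_le_lgC K)
  unfold shC
  nlinarith

theorem shG_bd {K d : ℕ} {s : Fin d → ℝ} (hs : ∀ i, |s i| ≤ 1) {F : (Fin d → Fin (K + 1)) → ℝ}
    {B : ℝ} (hF : ∀ β, |F β| ≤ B) (β : Fin d → Fin (K + 1)) : |shG K s F β| ≤ shC K d * B := by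
  have hC := one_le_lgC K
  unfold shG shC
  refine (Finset.abs_sum_le_sum_abs _ _).trans ?_
  calc ∑ β' : Fin d → Fin (K + 1), |ell K β' (fun i => s i + nd K β i) * F β'|
      ≤ ∑ _β' : Fin d → Fin (K + 1), lgC K ^ d * B := by
        refine Finset.sum_le_sum fun β' _ => ?_
        rw [abs_mul]
        exact mul_le_mul (ell_bd β' (fun i => (sh_mem hs β i).1) fun i => (sh_mem hs β i).2)
          (hF β') (abs_nonneg _) (by positivity)
    _ = _ := by
        rw [Finset.sum_const, Finset.card_univ, card_grid, nsmul_eq_mul]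
        push_cast
        ring

theorem shG_near {K d : ℕ} {s s' : Fin d → ℝ} (hs : ∀ i, |s i| ≤ 1) (hs' : ∀ i, |s' i| ≤ 1)
    {F F' : (Fin d → Fin (K + 1)) → ℝ} {B ε δ : ℝ} (hF' : ∀ β, |F' β| ≤ B)
    (hFF : ∀ β, |F β - F' β| ≤ ε) (hδ : 0 ≤ δ) (hss : ∀ i, |s i - s' i| ≤ δ)
    (β : Fin d → Fin (K + 1)) :
    |shG K s F β - shG K s' F' β| ≤
      shC K d * ε + (K + 1) ^ d * (d * K ^ 2 * lgC K ^ (d + 1)) * (δ * B) := by
  have hC := one_le_lgC K
  have hB : 0 ≤ B := (abs_nonneg _).trans (hF' β)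
  have e1 : shG K s F β - shG K s' F' β = shG K s (fun γ => F γ - F' γ) β +
      ∑ β' : Fin d → Fin (K + 1), (ell K β' (fun i => s i + nd K β i) -
        ell K β' (fun i => s' i + nd K β i)) * F' β' := by
    unfold shG
    rw [← Finset.sum_sub_distrib, ← Finset.sum_add_distrib]
    exact Finset.sum_congr rfl fun β' _ => by ring
  rw [e1]
  refine (abs_add_le _ _).trans (add_le_add (shG_bd hs hFF β) ?_)
  refine (Finset.abs_sum_le_sum_abs _ _).trans ?_
  calc ∑ β' : Fin d → Fin (K + 1), |(ell K β' (fun i => s i + nd K β i) -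
          ell K β' (fun i => s' i + nd K β i)) * F' β'|
      ≤ ∑ _β' : Fin d → Fin (K + 1), d * K ^ 2 * lgC K ^ (d + 1) * δ * B := by
        refine Finset.sum_le_sum fun β' _ => ?_
        rw [abs_mul]
        refine mul_le_mul (ell_lip β' (fun i => (sh_mem hs β i).1) (fun i => (sh_mem hs β i).2)
          (fun i => (sh_mem hs' β i).1) (fun i => (sh_mem hs' β i).2) hδ fun i => ?_) (hF' β')
          (abs_nonneg _) (by positivity)
        have : s i + nd K β i - (s' i + nd K β i) = s i - s' i := by ring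
        rw [this]
        exact hss i
    _ = _ := by
        rw [Finset.sum_const, Finset.card_univ, card_grid, nsmul_eq_mul]
        push_cast
        ring

/-! ### Entropy -/

variable {Ω : Type} [Fintype Ω]

/-- Integer vectors, any finite index set. -/
theorem CH_vec_le {ι T : Type} [Fintype ι] {p : Ω → ℝ} (hp : ∀ ω, 0 ≤ p ω) (h1 : ∑ ω, p ω = 1)
    (X : Ω → ι → ℤ) (W : Ω → T) {L : ℝ} (hX : ∀ ω ω', 0 < p ω → 0 < p ω' → W ω = W ω' →
      ∀ k, |((X ω k - X ω' k : ℤ) : ℝ)| ≤ L) :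
    CH p X W ≤ Fintype.card ι * Real.log (2 * L + 1) := by
  have e : ι ≃ Fin (Fintype.card ι) := Fintype.equivFin ι
  have h2 := CH_le_vec (d := Fintype.card ι) hp h1 (fun ω k => X ω (e.symm k)) W (fun _ => L)
    (fun ω ω' a b c k => hX ω ω' a b c _)
  have h3 : CH p X W ≤ CH p (fun ω k => X ω (e.symm k)) W :=
    CH_mono_left hp (fun ω ω' _ _ h => by
      have h4 := (Prod.ext_iff.mp h).1
      funext k
      have h5 := congrFun h4 (e k)
      simpa using h5)
  have h4 : Ex p (fun _ => Real.log (2 * L + 1)) = Real.log (2 * L + 1) := by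
    unfold Ex
    rw [← Finset.sum_mul, h1, one_mul]
  rw [h4] at h2
  exact h3.trans h2

/-- The error of the digits of a shift. -/
noncomputable def shD (K d : ℕ) (σ B δ : ℝ) : ℝ :=
  shC K d + (K + 1) ^ d * (d * K ^ 2 * lgC K ^ (d + 1)) * (δ * (σ * B)) + 1

/-- **Shift of the grid, entropy.** -/
theorem shf_ent {K d : ℕ} {T : Type} {p : Ω → ℝ} (hp : ∀ ω, 0 ≤ p ω) (h1 : ∑ ω, p ω = 1)
    (F : Ω → (Fin d → Fin (K + 1)) → ℝ) (s : Ω → Fin d → ℝ) (W : Ω → T) {σ B δ : ℝ} (hσ : 0 ≤ σ)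
    (hδ : 0 ≤ δ) (hs : ∀ ω, 0 < p ω → ∀ i, |s ω i| ≤ 1) (hF : ∀ ω, 0 < p ω → ∀ β, |F ω β| ≤ B)
    (hW : ∀ ω ω', 0 < p ω → 0 < p ω' → W ω = W ω' → ∀ i, |s ω i - s ω' i| ≤ δ) :
    CH p (fun ω β => ⌊σ * shG K (s ω) (F ω) β⌋) W ≤
      CH p (fun ω β => ⌊σ * F ω β⌋) W + (K + 1) ^ d * Real.log (2 * shD K d σ B δ + 1) := by
  have k1 := CH_le_add hp (fun ω β => ⌊σ * shG K (s ω) (F ω) β⌋) (fun ω β => ⌊σ * F ω β⌋) W
  have k2 : CH p (fun ω β => ⌊σ * shG K (s ω) (F ω) β⌋) (fun ω => ((fun β => ⌊σ * F ω β⌋), W ω)) ≤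
      (K + 1) ^ d * Real.log (2 * shD K d σ B δ + 1) := by
    have k3 := CH_vec_le hp h1 (fun ω (β : Fin d → Fin (K + 1)) => ⌊σ * shG K (s ω) (F ω) β⌋)
      (fun ω => ((fun β => ⌊σ * F ω β⌋), W ω)) (L := shD K d σ B δ) ?_
    · rw [card_grid] at k3
      push_cast at k3
      exact k3
    · intro ω ω' hω hω' h β
      have h2 := (Prod.ext_iff.mp h).1
      have h3 := hW ω ω' hω hω' (Prod.ext_iff.mp h).2
      have e1 : ∀ (G : (Fin d → Fin (K + 1)) → ℝ) (t : Fin d → ℝ),
          σ * shG K t G β = shG K t (fun γ => σ * G γ) β := by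
        intro G t
        unfold shG
        rw [Finset.mul_sum]
        exact Finset.sum_congr rfl fun γ _ => by ring
      have h4 := shG_near (hs ω hω) (hs ω' hω') (F := fun γ => σ * F ω γ)
        (F' := fun γ => σ * F ω' γ) (B := σ * B) (ε := 1) (δ := δ) (fun γ => by
          rw [abs_mul, abs_of_nonneg hσ]
          exact mul_le_mul_of_nonneg_left (hF ω' hω' γ) hσ) (fun γ => by
          have h5 : ⌊σ * F ω γ⌋ = ⌊σ * F ω' γ⌋ := congrFun h2 γ
          have a1 := Int.floor_le (σ * F ω γ)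
          have a2 := Int.lt_floor_add_one (σ * F ω γ)
          have b1 := Int.floor_le (σ * F ω' γ)
          have b2 := Int.lt_floor_add_one (σ * F ω' γ)
          rw [h5] at a1 a2
          rw [abs_le]
          constructor <;> linarith) hδ h3 β
      rw [← e1, ← e1] at h4
      have a1 := Int.floor_le (σ * shG K (s ω) (F ω) β)
      have a2 := Int.lt_floor_add_one (σ * shG K (s ω) (F ω) β)
      have b1 := Int.floor_le (σ * shG K (s ω') (F ω') β)
      have b2 := Int.lt_floor_add_one (σ * shG K (s ω') (F ω') β)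
      push_cast
      unfold shD
      rw [abs_le] at h4 ⊢
      constructor <;> linarith [h4.1, h4.2]
  linarith

/-- **The converse direction.** -/
theorem shf_inv {K d : ℕ} (hK : 1 ≤ K) {T : Type} {p : Ω → ℝ} (hp : ∀ ω, 0 ≤ p ω)
    (h1 : ∑ ω, p ω = 1) (F : Ω → (Fin d → Fin (K + 1)) → ℝ) (s : Ω → Fin d → ℝ) (W : Ω → T)
    {σ B δ : ℝ} (hσ : 0 ≤ σ) (hδ : 0 ≤ δ) (hs : ∀ ω, 0 < p ω → ∀ i, |s ω i| ≤ 1)
    (hF : ∀ ω, 0 < p ω → ∀ β, |F ω β| ≤ B)
    (hW : ∀ ω ω', 0 < p ω → 0 < p ω' → W ω = W ω' → ∀ i, |s ω i - s ω' i| ≤ δ) :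
    CH p (fun ω β => ⌊σ * F ω β⌋) W ≤ CH p (fun ω β => ⌊σ * shG K (s ω) (F ω) β⌋) W +
      (K + 1) ^ d * Real.log (2 * shD K d σ (shC K d * B) δ + 1) := by
  have k1 := shf_ent (K := K) (d := d) hp h1 (fun ω => shG K (s ω) (F ω)) (fun ω i => -s ω i) W
    (σ := σ) (B := shC K d * B) (δ := δ) hσ hδ (fun ω hω i => by
      rw [abs_neg]
      exact hs ω hω i) (fun ω hω β => shG_bd (hs ω hω) (hF ω hω) β) (fun ω ω' a b c i => by
      have := hW ω ω' a b c i
      have e : -s ω i - -s ω' i = -(s ω i - s ω' i) := by ring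
      rw [e, abs_neg]
      exact this)
  simp only [shG_neg hK] at k1
  exact k1

end Pool.D2G30
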