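import Pool.Agent.H92.D2.Tub
import Pool.Agent.H21.POT.Lin

/-!
# V1 empty: the gradients at the times of a tuple

`tup_grad`: in a tuple of samples of one line, the gradients of all the balls at the nodes of the tube
are few bits given the first ball, the velocity and the times; the position in the tube is full given
these.
-/

set_option autoImplicit false

namespace Pool.V1E

open Finset Real
open Pool.Agent.H49.Ent Pool.Agent.H32.Dense Pool.STK Pool.D2A Pool.D2Con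
open Pool.BFL (Pb)
open Pool.D2G30
open Pool.SLO (tup tup_nonneg tup_isLaw tup_pos_iff)
open Pool.POT (im_tup)
open MvPolynomial (eval pderiv)

/-! ### The times of the tuple -/

section times

variable {Ω Λ : Type} [Fintype Ω]

/-- Naturals below `N₀`. -/
theorem CH_nat_le {q : Ω → ℝ} (hq : IsLaw q) {T : Ω → ℕ} {N₀ : ℕ}
    (hT : ∀ ω, 0 < q ω → T ω < N₀) : CH q T (fun _ => ()) ≤ Real.log N₀ := by
  have h := CH_le_card hq.nonneg hq.sum_one T (fun _ => ()) (fun _ => range N₀)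
    (fun ω hω => mem_range.2 (hT ω hω))
  simp only [card_range] at h
  have h4 : Ex q (fun _ => Real.log (N₀ : ℝ)) = Real.log N₀ := by
    unfold Ex
    rw [← Finset.sum_mul, hq.sum_one, one_mul]
  rw [h4] at h
  exact h

/-- **The other times carry few bits** about the first sample. -/
theorem tup_times {q : Ω → ℝ} (hq : IsLaw q) (L : Ω → Λ) {T : Ω → ℕ} {N₀ : ℕ} {e : ℝ}
    (hT : ∀ ω, 0 < q ω → T ω < N₀) (hf : Real.log N₀ - e ≤ CH q T L) (D : ℕ) {ρ σ : Type}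
    (R : Ω → ρ) (Y : Ω → σ) :
    CH q Y R - (D + 1) * e ≤ CH (tup q L (D + 1)) (fun v => Y (v 0))
      (fun v => ((fun j : Fin (D + 1) => T (v j.succ)), R (v 0))) := by
  have h0 := hq.nonneg
  have P0 : ∀ v, 0 ≤ tup q L (D + 1) v := fun v => tup_nonneg h0 L _ v
  have e1 : Pool.POT.MI q T L (fun _ => ()) ≤ e := by
    unfold Pool.POT.MI
    have h1 := CH_nat_le hq hT
    have h2 : CH q T L ≤ CH q T (fun ω => (L ω, ())) := CH_mono_cond h0 fun ω ω' _ _ h => by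
      show (L ω, ()) = (L ω', ())
      rw [show L ω = L ω' from h]
    linarith
  have e2 := Pool.POT.tup_cost h0 (L := L) (b := fun _ => ()) T (fun _ _ _ _ _ => rfl) e1 (D + 1)
  have e3 := Pool.POT.tup_ci0 h0 L D (fun ω => ω) (fun w (j : Fin (D + 1)) => T (w j))
  -- the mutual information with the first sample
  rw [Pool.POT.MI_symm P0] at e2 e3
  unfold Pool.POT.MI at e2 e3
  have e4 : CH (tup q L (D + 1)) (fun v (j : Fin (D + 1)) => T (v j.succ))
      (fun v => (v 0, L (v 0))) ≤ CH (tup q L (D + 1)) (fun v (j : Fin (D + 1)) => T (v j.succ))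
      (fun v => (Y (v 0), R (v 0))) :=
    CH_mono_cond P0 fun v v' _ _ h => by
      have h1 : v 0 = v' 0 := (Prod.ext_iff.1 h).1
      show (Y (v 0), R (v 0)) = (Y (v' 0), R (v' 0))
      rw [h1]
  have e5 : CH (tup q L (D + 1)) (fun v (j : Fin (D + 1)) => T (v j.succ)) (fun v => R (v 0)) ≤
      CH (tup q L (D + 1)) (fun v (j : Fin (D + 1)) => T (v j.succ)) (fun _ => ()) :=
    CH_mono_cond P0 fun _ _ _ _ _ => rfl
  have e6 : CH (tup q L (D + 1)) (fun v (j : Fin (D + 1)) => T (v j.succ))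
      (fun v => (L (v 0), ())) ≤ CH (tup q L (D + 1)) (fun v (j : Fin (D + 1)) => T (v j.succ))
      (fun v => L (v 0)) :=
    CH_mono_cond P0 fun v v' _ _ h => (Prod.ext_iff.1 h).1
  have e7 := Pool.POT.MI_symm P0 (fun v => Y (v 0)) (fun v (j : Fin (D + 1)) => T (v j.succ))
    (fun v => R (v 0))
  unfold Pool.POT.MI at e7
  have e8 : CH (tup q L (D + 1)) (fun v => Y (v 0)) (fun v => R (v 0)) = CH q Y R :=
    (im_tup h0 L (D + 1) 0).CH Y R
  push_cast at e2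
  linarith

end times

/-! ### One sample -/

section one

variable {K d D CM Q MB k N₀ M M' : ℕ} {δ : ℝ} {Ω Λ ζ α ε κ : Type} [Fintype Ω] {q : Ω → ℝ}
  {L : Ω → Λ} {T : Ω → ℕ} {Z : Ω → ζ} {a : Ω → α} {E : Ω → ε} {X : ε → Fin (d + 1) → ℝ}
  {Pf : ζ → MvPolynomial (Fin d) ℝ} {Pg : ζ → Fin (d + 1) → MvPolynomial (Fin d) ℝ}
  {c : Λ → κ} {s : Ω → Fin d → ℝ} {ξ : Λ → Fin d → ℝ} {n : Λ → Polynomial ℝ}
  {Θ : Λ → Fin d → Polynomial ℝ} {P : Λ → Gr K d → Polynomial ℝ}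

/-- The closed data of the tube: its code and the jets of all the labels. -/
noncomputable def Cfl (D M : ℕ) (c : Λ → κ) (P : Λ → Gr K d → Polynomial ℝ) (l : Λ) :
    κ × ((Gr K d → Fin (D + 1) → ℤ) × (Fin (D + 1) → ℤ)) :=
  (c l, ((fun β j => ⌊2 ^ M * ((P l β).coeff j - (P l (fun _ => 0)).coeff j)⌋),
    fun j => ⌊2 ^ M * (P l (fun _ => 0)).coeff j⌋))

/-- They are few bits given the key and the velocity. -/
theorem cf_few (h0 : ∀ ω, 0 ≤ q ω) (hI : Im K d D Q M N₀ δ q L T Z a E Pf c s ξ n P)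
    (hJ : Jets K d D Q M δ q L Z a E Pf P) :
    CH q (fun ω => Cfl D M c P (L ω)) (fun ω => (E ω, Key M Z a Pf ω)) ≤ 2 * (δ * Q) := by
  have h1 := hI.few
  have h2 : CH q (fun ω => (c (L ω), ((fun (β : Gr K d) (j : Fin (D + 1)) =>
      ⌊2 ^ M * ((P (L ω) β).coeff j - (P (L ω) (fun _ => 0)).coeff j)⌋),
      fun j : Fin (D + 1) => ⌊2 ^ (M - Q) * (P (L ω) (fun _ => 0)).coeff j⌋)))
      (fun ω => (E ω, Key M Z a Pf ω)) ≤ δ * Q := by
    refine (CH_mono_cond h0 fun ω ω' _ _ h => ?_).trans h1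
    obtain ⟨e1, e2⟩ := Prod.ext_iff.1 h
    exact Prod.ext e1 (key_det (M - Q) M (Nat.sub_le _ _) e2)
  have h3 : CH q (fun ω => Cfl D M c P (L ω)) (fun ω => (E ω, Key M Z a Pf ω)) ≤
      CH q (fun ω => ((c (L ω), ((fun (β : Gr K d) (j : Fin (D + 1)) =>
        ⌊2 ^ M * ((P (L ω) β).coeff j - (P (L ω) (fun _ => 0)).coeff j)⌋),
        fun j : Fin (D + 1) => ⌊2 ^ (M - Q) * (P (L ω) (fun _ => 0)).coeff j⌋)),
        (fun j : Fin (D + 1) => ⌊2 ^ M * (P (L ω) (fun _ => 0)).coeff j⌋)))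
        (fun ω => (E ω, Key M Z a Pf ω)) := by
    refine CH_mono_left h0 fun ω ω' _ _ h => ?_
    have e1 := (Prod.ext_iff.1 h).1
    obtain ⟨e2, e3⟩ := Prod.ext_iff.1 e1
    obtain ⟨e4, e5⟩ := Prod.ext_iff.1 e2
    exact Prod.ext e4 (Prod.ext (Prod.ext_iff.1 e5).1 e3)
  have h4 := CH_subadd h0 (fun ω => (c (L ω), ((fun (β : Gr K d) (j : Fin (D + 1)) =>
      ⌊2 ^ M * ((P (L ω) β).coeff j - (P (L ω) (fun _ => 0)).coeff j)⌋),
      fun j : Fin (D + 1) => ⌊2 ^ (M - Q) * (P (L ω) (fun _ => 0)).coeff j⌋)))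
    (fun ω => (fun j : Fin (D + 1) => ⌊2 ^ M * (P (L ω) (fun _ => 0)).coeff j⌋))
    (fun ω => (E ω, Key M Z a Pf ω))
  unfold Jets at hJ
  linarith

/-- The labels of two tubes with the same data are close. -/
theorem cf_near {l l' : Λ} (hd : ∀ l β, (P l β).natDegree ≤ D)
    (h : Cfl D M c P l = Cfl D M c P l') {u : ℝ} (u0 : 0 ≤ u) (u1 : u ≤ 1) (β : Gr K d) :
    |2 ^ M * (P l β).eval u - 2 ^ M * (P l' β).eval u| ≤ 2 * (D + 1) := by
  obtain ⟨-, h2⟩ := Prod.ext_iff.1 h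
  obtain ⟨h3, h4⟩ := Prod.ext_iff.1 h2
  have key : ∀ j : Fin (D + 1), |2 ^ M * (P l β).coeff j - 2 ^ M * (P l' β).coeff j| ≤ 2 := by
    intro j
    have e1 := Int.abs_sub_lt_one_of_floor_eq_floor (congrFun (congrFun h3 β) j)
    have e2 := Int.abs_sub_lt_one_of_floor_eq_floor (congrFun h4 j)
    have e3 : 2 ^ M * (P l β).coeff j - 2 ^ M * (P l' β).coeff j =
        (2 ^ M * ((P l β).coeff j - (P l (fun _ => 0)).coeff j) -
          2 ^ M * ((P l' β).coeff j - (P l' (fun _ => 0)).coeff j)) +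
        (2 ^ M * (P l (fun _ => 0)).coeff j - 2 ^ M * (P l' (fun _ => 0)).coeff j) := by ring
    rw [e3]
    refine (abs_add_le _ _).trans ?_
    linarith
  have ev : ∀ l'' : Λ, (P l'' β).eval u = ∑ j : Fin (D + 1), (P l'' β).coeff j * u ^ (j : ℕ) := by
    intro l''
    rw [Polynomial.eval_eq_sum_range' (n := D + 1) (by have := hd l'' β; omega),
      ← Fin.sum_univ_eq_sum_range (fun j => (P l'' β).coeff j * u ^ j) (D + 1)]
  rw [ev, ev, Finset.mul_sum, Finset.mul_sum, ← Finset.sum_sub_distrib]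
  refine (Finset.abs_sum_le_sum_abs _ _).trans ?_
  calc ∑ j : Fin (D + 1), |2 ^ M * ((P l β).coeff j * u ^ (j : ℕ)) -
        2 ^ M * ((P l' β).coeff j * u ^ (j : ℕ))| ≤ ∑ _j : Fin (D + 1), (2 : ℝ) := by
        refine Finset.sum_le_sum fun j _ => ?_
        have e1 : 2 ^ M * ((P l β).coeff j * u ^ (j : ℕ)) -
            2 ^ M * ((P l' β).coeff j * u ^ (j : ℕ)) =
            (2 ^ M * (P l β).coeff j - 2 ^ M * (P l' β).coeff j) * u ^ (j : ℕ) := by ring
        rw [e1, abs_mul, abs_of_nonneg (pow_nonneg u0 _)]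
        calc _ ≤ 2 * 1 := mul_le_mul (key j) (pow_le_one₀ u0 u1) (pow_nonneg u0 _) (by norm_num)
          _ = 2 := mul_one _
    _ = 2 * (D + 1) := by
        rw [Finset.sum_const, Finset.card_univ, Fintype.card_fin, nsmul_eq_mul]
        push_cast
        ring

/-- The error of the centre. -/
noncomputable def gE (K d D : ℕ) (δ : ℝ) (Q : ℕ) : ℝ :=
  iC K d * (2 * 2 ^ (δ * Q) + 2 * (D + 1)) + 1

/-- **One sample**: the gradients at the nodes of the tube, given the data of the tube, the velocity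
and the time. -/
theorem grad_one (hT : TL K d D CM Q MB k N₀ δ q L T Z a E X Pf Pg c s ξ n Θ)
    (hI : Im K d D Q M N₀ δ q L T Z a E Pf c s ξ n P) (hG : GradF K d Q M M' δ q Z a Pf Pg) :
    CH q (fun ω => cel (2 ^ (M' - Q)) (fun b : Gr K d × Fin d =>
        eval (fun i' => s ω i' + nd K b.1 i') (Pg (Z ω) b.2.succ)))
      (fun ω => (Cfl D M c P (L ω), (E ω, T ω))) ≤
      2 * (δ * Q) + (Real.log 2 + (Real.log (2 * gE K d D δ Q + 1) +
        δ * Real.log (4 * (2 ^ M * 2 ^ (δ * Q) + 1) + 1))) +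
      (K + 1) ^ d * d * Real.log (2 * (iC K d + 1) + 1) := by
  classical
  have hq := hT.law
  have h0 := hq.nonneg
  have hiC := one_le_iC K d
  have hK := hT.hK
  have w1 : (1 : ℝ) ≤ 2 ^ (δ * Q) := Real.one_le_rpow (by norm_num)
    (mul_nonneg hT.δ0 (Nat.cast_nonneg Q))
  have hN0 : (0 : ℝ) < N₀ := by
    have : 0 < N₀ := lt_of_lt_of_le (by positivity) hT.hN
    exact_mod_cast this
  have u01 : ∀ ω, 0 < q ω → 0 ≤ uu N₀ T ω ∧ uu N₀ T ω ≤ 1 := by
    intro ω hω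
    unfold uu
    refine ⟨by positivity, ?_⟩
    rw [div_le_one hN0]
    exact_mod_cast (hT.Tlt ω hω).le
  obtain ⟨W, hW⟩ : ∃ W : Ω → (κ × ((Gr K d → Fin (D + 1) → ℤ) × (Fin (D + 1) → ℤ))) × (ε × ℕ),
    W = fun ω => (Cfl D M c P (L ω), (E ω, T ω)) := ⟨_, rfl⟩
  obtain ⟨K2, hK2⟩ : ∃ K2 : Ω → Unit → ℤ,
    K2 = fun ω _ => ⌊2 ^ M * eval (fun _ => 0) (Pf (Z ω))⌋ := ⟨_, rfl⟩
  obtain ⟨Y, hY⟩ : ∃ Y : Ω → Gr K d × Fin (d + 1) → ℤ,
    Y = fun ω b => ⌊2 ^ (M' - Q) * eval (nd K b.1) (Pg (Z ω) b.2)⌋ := ⟨_, rfl⟩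
  obtain ⟨X3, hX3⟩ : ∃ X3 : Ω → Gr K d × Fin d → ℤ, X3 = fun ω => cel (2 ^ (M' - Q))
    (fun b : Gr K d × Fin d => eval (fun i' => s ω i' + nd K b.1 i') (Pg (Z ω) b.2.succ)) :=
    ⟨_, rfl⟩
  rw [← hW, ← hX3]
  -- the record of the window
  have c1 : CH q a W ≤ δ * Q := by
    refine (CH_mono_cond h0 fun ω ω' _ _ h => ?_).trans hT.afew
    rw [hW] at h
    obtain ⟨e1, e2⟩ := Prod.ext_iff.1 h
    exact Prod.ext (Prod.ext_iff.1 e1).1 (Prod.ext_iff.1 e2).2
  have c2 := CH_le_add h0 X3 a W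
  have c3 := CH_le_add h0 X3 K2 (fun ω => (a ω, W ω))
  have c4 := CH_le_add h0 X3 Y (fun ω => (K2 ω, (a ω, W ω)))
  -- the shift
  have sdet : ∀ ω ω', 0 < q ω → 0 < q ω' → a ω = a ω' → W ω = W ω' → s ω = s ω' := by
    intro ω ω' hω hω' e1 e2
    rw [hW] at e2
    obtain ⟨e3, e4⟩ := Prod.ext_iff.1 e2
    exact hT.sc ω ω' hω hω' (Prod.ext (Prod.ext_iff.1 e3).1 (Prod.ext (Prod.ext_iff.1 e4).1 e1))
  -- the centre
  have k2 : CH q K2 (fun ω => (a ω, W ω)) ≤ Real.log 2 + (Real.log (2 * gE K d D δ Q + 1) +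
      δ * Real.log (4 * (2 ^ M * 2 ^ (δ * Q) + 1) + 1)) := by
    have h1 := CH_vecb hq K2 (fun ω => (a ω, W ω)) (fun ω => ∃ β : Gr K d,
      2 ^ (δ * Q) / 2 ^ M < |vt K Z Pf s ω β - (P (L ω) β).eval (uu N₀ T ω)|)
      (M := 2 ^ M * 2 ^ (δ * Q) + 1) (D := gE K d D δ Q) hI.cls (by positivity)
      (by unfold gE; positivity)
      (by
        intro ω hω _
        have h3 := hT.bdf ω hω (fun _ => 0)
        have e0 : nd K (fun _ : Fin d => (0 : Fin (K + 1))) = fun _ => 0 := by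
          funext i
          unfold nd
          simp
        rw [e0] at h3
        have h6 : |2 ^ M * eval (fun _ => 0) (Pf (Z ω))| ≤ 2 ^ M * 2 ^ (δ * Q) := by
          rw [abs_mul, abs_of_nonneg (by positivity : (0 : ℝ) ≤ 2 ^ M)]
          exact mul_le_mul_of_nonneg_left h3 (by positivity)
        rw [hK2]
        have h4 := Int.floor_le (2 ^ M * eval (fun _ => 0) (Pf (Z ω)))
        have h5 := Int.lt_floor_add_one (2 ^ M * eval (fun _ => 0) (Pf (Z ω)))
        rw [abs_le] at h6 ⊢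
        constructor <;> linarith [h6.1, h6.2])
      (by
        intro ω ω' hω hω' hg hg' h _
        obtain ⟨e1, e2⟩ := Prod.ext_iff.1 h
        have es := sdet ω ω' hω hω' e1 e2
        rw [hW] at e2
        obtain ⟨e3, e4⟩ := Prod.ext_iff.1 e2
        have eT : T ω = T ω' := (Prod.ext_iff.1 e4).2
        have eu : uu N₀ T ω' = uu N₀ T ω := by
          unfold uu
          rw [eT]
        push Not at hg hg'
        rw [hK2]
        unfold gE
        refine (floor_diff _ _).trans (add_le_add ?_ le_rfl)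
        have a1 := shift_eval hK (Pf (Z ω)) (hT.dgf _) (s ω) (fun _ => 0)
        have a2 := shift_eval hK (Pf (Z ω')) (hT.dgf _) (s ω') (fun _ => 0)
        have b1 : ∀ x : Ω, 2 ^ M * ∑ β : Fin d → Fin (K + 1), ell K β (fun i => 0 - s x i) *
            eval (fun i => s x i + nd K β i) (Pf (Z x)) =
            ∑ β : Fin d → Fin (K + 1), ell K β (fun i => 0 - s x i) *
              (2 ^ M * vt K Z Pf s x β) := by
          intro x
          rw [Finset.mul_sum]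
          refine Finset.sum_congr rfl fun β _ => ?_
          unfold vt
          ring
        rw [a1, a2, b1, b1, ← es]
        refine ell_sum_near _ _ (fun β => ?_) (fun i => ?_) (fun i => ?_)
        · have c1 := hg β
          have c2 := hg' β
          rw [eu] at c2
          have c3 := cf_near hI.deg e3 (u01 ω hω).1 (u01 ω hω).2 β
          have pM : (0 : ℝ) < 2 ^ M := by positivity
          have c4 : |2 ^ M * vt K Z Pf s ω β - 2 ^ M * (P (L ω) β).eval (uu N₀ T ω)| ≤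
              2 ^ (δ * Q) := by
            rw [← mul_sub, abs_mul, abs_of_pos pM]
            calc _ ≤ 2 ^ M * (2 ^ (δ * Q) / 2 ^ M) := mul_le_mul_of_nonneg_left c1 pM.le
              _ = _ := by field_simp
          have c5 : |2 ^ M * vt K Z Pf s ω' β - 2 ^ M * (P (L ω') β).eval (uu N₀ T ω)| ≤
              2 ^ (δ * Q) := by
            rw [← mul_sub, abs_mul, abs_of_pos pM]
            calc _ ≤ 2 ^ M * (2 ^ (δ * Q) / 2 ^ M) := mul_le_mul_of_nonneg_left c2 pM.le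
              _ = _ := by field_simp
          rw [abs_le] at c3 c4 c5 ⊢
          constructor <;> linarith [c3.1, c3.2, c4.1, c4.2, c5.1, c5.2]
        · have c1 := abs_le.1 (hT.s1 ω hω i)
          linarith [c1.2]
        · have c1 := abs_le.1 (hT.s1 ω hω i)
          linarith [c1.1])
    rw [Fintype.card_unit] at h1
    push_cast at h1
    linarith
  -- the gradients at the nodes of the corner
  have k3 : CH q Y (fun ω => (K2 ω, (a ω, W ω))) ≤ δ * Q := by
    refine (CH_mono_cond h0 fun ω ω' _ _ h => ?_).trans (by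
      rw [hY]
      exact hG)
    obtain ⟨e1, e2⟩ := Prod.ext_iff.1 h
    rw [hK2] at e1
    exact Prod.ext (Prod.ext_iff.1 e2).1 (congrFun e1 ())
  -- the shifted nodes
  have k4 : CH q X3 (fun ω => (Y ω, (K2 ω, (a ω, W ω)))) ≤
      (K + 1) ^ d * d * Real.log (2 * (iC K d + 1) + 1) := by
    have h1 := CH_vec_le h0 hq.sum_one X3 (fun ω => (Y ω, (K2 ω, (a ω, W ω))))
      (L := iC K d + 1) (by
        intro ω ω' hω hω' h b
        obtain ⟨e1, e2⟩ := Prod.ext_iff.1 h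
        obtain ⟨-, e3⟩ := Prod.ext_iff.1 e2
        obtain ⟨e4, e5⟩ := Prod.ext_iff.1 e3
        have es := sdet ω ω' hω hω' e4 e5
        rw [hX3]
        show |((⌊2 ^ (M' - Q) * eval (fun i' => s ω i' + nd K b.1 i') (Pg (Z ω) b.2.succ)⌋ -
          ⌊2 ^ (M' - Q) * eval (fun i' => s ω' i' + nd K b.1 i') (Pg (Z ω') b.2.succ)⌋ : ℤ) : ℝ)|
          ≤ _
        refine (floor_diff _ _).trans (add_le_add ?_ le_rfl)
        rw [← es]
        rw [ell_interp hK (Pg (Z ω) b.2.succ) (hT.dgg _ _) (fun i' => s ω i' + nd K b.1 i'),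
          ell_interp hK (Pg (Z ω') b.2.succ) (hT.dgg _ _) (fun i' => s ω i' + nd K b.1 i'),
          Finset.mul_sum, Finset.mul_sum]
        have b1 : ∀ x : Ω, ∑ β : Fin d → Fin (K + 1), 2 ^ (M' - Q) *
            (ell K β (fun i' => s ω i' + nd K b.1 i') * eval (nd K β) (Pg (Z x) b.2.succ)) =
            ∑ β : Fin d → Fin (K + 1), ell K β (fun i' => s ω i' + nd K b.1 i') *
              (2 ^ (M' - Q) * eval (nd K β) (Pg (Z x) b.2.succ)) := fun x =>
          Finset.sum_congr rfl fun β _ => by ring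
        rw [b1, b1]
        refine (ell_sum_near (δ := 1) _ _ (fun β => ?_) (fun i => ?_) (fun i => ?_)).trans
          (by rw [mul_one])
        · rw [hY] at e1
          exact (Int.abs_sub_lt_one_of_floor_eq_floor (congrFun e1 (β, b.2.succ))).le
        · have c1 := abs_le.1 (hT.s1 ω hω i)
          have c2 := nd_nonneg b.1 i
          linarith [c1.1]
        · have c1 := abs_le.1 (hT.s1 ω hω i)
          have c2 := nd_le_one b.1 i
          linarith [c1.2])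
    rw [Fintype.card_prod, card_grid, Fintype.card_fin] at h1
    push_cast at h1
    exact h1
  linarith

end one

/-! ### Numbers -/

theorem grad_num (K d D CM : ℕ) {eps : ℝ} (heps : 0 < eps) : ∃ δ : ℝ, 0 < δ ∧
    (D + 2) * δ ≤ eps ∧ ∃ Q₀ : ℕ, ∀ Q M : ℕ, Q₀ ≤ Q → M ≤ CM * Q →
    2 * (δ * Q) + (2 * (δ * Q) + (Real.log 2 + (Real.log (2 * gE K d D δ Q + 1) +
        δ * Real.log (4 * (2 ^ M * 2 ^ (δ * Q) + 1) + 1))) +
      (K + 1) ^ d * d * Real.log (2 * (iC K d + 1) + 1)) ≤ eps * Q := by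
  have hiC := one_le_iC K d
  have hD : (0 : ℝ) ≤ D := Nat.cast_nonneg D
  have hCM : (0 : ℝ) ≤ CM := Nat.cast_nonneg CM
  obtain ⟨C₂, hC₂⟩ : ∃ C₂ : ℝ, C₂ = 4 * iC K d * (D + 2) + 3 := ⟨_, rfl⟩
  obtain ⟨A, hA⟩ : ∃ A : ℝ, A = Real.log 2 + Real.log C₂ + Real.log 9 +
    (K + 1) ^ d * d * Real.log (2 * (iC K d + 1) + 1) := ⟨_, rfl⟩
  obtain ⟨δ, hδ⟩ : ∃ δ : ℝ, δ = min 1 (eps / (2 * (CM + 8 + D))) := ⟨_, rfl⟩
  have hden : (0 : ℝ) < 2 * (CM + 8 + D) := by positivity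
  have δ0 : 0 < δ := by
    rw [hδ]
    exact lt_min one_pos (div_pos heps hden)
  have δ1 : δ ≤ 1 := by
    rw [hδ]
    exact min_le_left _ _
  have δ2 : δ * (2 * (CM + 8 + D)) ≤ eps := by
    have : δ ≤ eps / (2 * (CM + 8 + D)) := by
      rw [hδ]
      exact min_le_right _ _
    rwa [le_div_iff₀ hden] at this
  obtain ⟨Q₀, hQ₀⟩ := exists_nat_ge (2 * A / eps)
  refine ⟨δ, δ0, by nlinarith, Q₀, ?_⟩
  intro Q M hQ hM
  have hQ0 : (0 : ℝ) ≤ Q := Nat.cast_nonneg Q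
  have w0 : (0 : ℝ) < 2 ^ (δ * Q) := by positivity
  have w1 : (1 : ℝ) ≤ 2 ^ (δ * Q) := Real.one_le_rpow (by norm_num) (by positivity)
  have l2 : Real.log 2 ≤ 1 := by
    have := Real.log_two_lt_d9
    linarith
  have l0 : 0 ≤ Real.log 2 := Real.log_nonneg (by norm_num)
  have lw : Real.log (2 ^ (δ * Q)) ≤ δ * Q := by
    rw [Real.log_rpow (by norm_num)]
    exact mul_le_of_le_one_right (by positivity) l2
  have e1 : Real.log (2 * gE K d D δ Q + 1) ≤ Real.log C₂ + δ * Q := by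
    have h1 : 2 * gE K d D δ Q + 1 ≤ C₂ * 2 ^ (δ * Q) := by
      unfold gE
      rw [hC₂]
      have h2 : (0 : ℝ) ≤ (4 * iC K d * (D + 1) + 3) * (2 ^ (δ * Q) - 1) :=
        mul_nonneg (by positivity) (by linarith)
      nlinarith
    have h3 : 0 < 2 * gE K d D δ Q + 1 := by
      unfold gE
      positivity
    refine (Real.log_le_log h3 h1).trans ?_
    rw [Real.log_mul (by rw [hC₂]; positivity) w0.ne']
    linarith
  have hMQ : (M : ℝ) ≤ CM * Q := by exact_mod_cast hM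
  have e2 : Real.log (4 * (2 ^ M * 2 ^ (δ * Q) + 1) + 1) ≤ Real.log 9 + CM * Q + δ * Q := by
    have p1 : (1 : ℝ) ≤ 2 ^ M := one_le_pow₀ (by norm_num)
    have h1 : (4 : ℝ) * (2 ^ M * 2 ^ (δ * Q) + 1) + 1 ≤ 9 * 2 ^ M * 2 ^ (δ * Q) := by
      have h2 : (1 : ℝ) ≤ 2 ^ M * 2 ^ (δ * Q) := by nlinarith
      nlinarith
    refine (Real.log_le_log (by positivity) h1).trans ?_
    rw [Real.log_mul (by positivity) w0.ne', Real.log_mul (by norm_num) (by positivity),
      Real.log_pow]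
    have h3 : (M : ℝ) * Real.log 2 ≤ M := mul_le_of_le_one_right (Nat.cast_nonneg M) l2
    linarith
  have l9 : 0 ≤ Real.log 9 := Real.log_nonneg (by norm_num)
  have e3 : δ * Real.log (4 * (2 ^ M * 2 ^ (δ * Q) + 1) + 1) ≤
      Real.log 9 + δ * CM * Q + δ * Q := by
    have h1 := mul_le_mul_of_nonneg_left e2 δ0.le
    have h2 : δ * Real.log 9 ≤ Real.log 9 := mul_le_of_le_one_left l9 δ1
    have h3 : δ * (δ * Q) ≤ δ * Q := mul_le_of_le_one_left (by positivity) δ1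
    calc _ ≤ δ * (Real.log 9 + CM * Q + δ * Q) := h1
      _ = δ * Real.log 9 + δ * CM * Q + δ * (δ * Q) := by ring
      _ ≤ _ := by linarith
  have e4 : A ≤ eps / 2 * Q := by
    have h1 : 2 * A / eps ≤ Q := hQ₀.trans (by exact_mod_cast hQ)
    rw [div_le_iff₀ heps] at h1
    linarith
  have e5 : δ * Q * (CM + 6) ≤ eps / 2 * Q := by
    have h1 : δ * (CM + 6) ≤ eps / 2 := by nlinarith
    calc δ * Q * (CM + 6) = δ * (CM + 6) * Q := by ring
      _ ≤ _ := mul_le_mul_of_nonneg_right h1 hQ0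
  have e6 : δ * Q * (CM + 6) = 6 * (δ * Q) + δ * CM * Q := by ring
  rw [hA] at e4
  linarith

/-- **(P3)** The gradients at the times of a tuple. -/
theorem tup_grad (K d D CM : ℕ) {eps : ℝ} (heps : 0 < eps) : ∃ δ : ℝ, 0 < δ ∧ ∃ Q₀ : ℕ,
    ∀ {Q MB k N₀ M M' : ℕ}, Q₀ ≤ Q → Q ≤ M → M ≤ MB → Q ≤ M' → M' ≤ M + Q → M' ≤ MB →
    ∀ {Ω Λ ζ α ε κ : Type} [Fintype Ω] {q : Ω → ℝ} {L : Ω → Λ} {T : Ω → ℕ} {Z : Ω → ζ}
      {a : Ω → α} {E : Ω → ε} {X : ε → Fin (d + 1) → ℝ} {Pf : ζ → MvPolynomial (Fin d) ℝ}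
      {Pg : ζ → Fin (d + 1) → MvPolynomial (Fin d) ℝ} {c : Λ → κ} {s : Ω → Fin d → ℝ}
      {ξ : Λ → Fin d → ℝ} {n : Λ → Polynomial ℝ} {Θ : Λ → Fin d → Polynomial ℝ}
      {P : Λ → Gr K d → Polynomial ℝ},
    TL K d D CM Q MB k N₀ δ q L T Z a E X Pf Pg c s ξ n Θ →
    Im K d D Q M N₀ δ q L T Z a E Pf c s ξ n P → Jets K d D Q M δ q L Z a E Pf P →
    GradF K d Q M M' δ q Z a Pf Pg →
    (∀ i : Fin (D + 2), CH (tup q L (D + 1)) (fun v => cel (2 ^ (M' - Q))
        (fun b : Gr K d × Fin d =>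
          eval (fun i' => s (v i) i' + nd K b.1 i') (Pg (Z (v i)) b.2.succ)))
        (fun v => (Z (v 0), (E (v 0), fun j => T (v j)))) ≤ eps * Q) ∧
    d * (k * Real.log 2) - eps * Q ≤ CH (tup q L (D + 1)) (fun v => xd k L ξ (v 0))
      (fun v => (Z (v 0), (E (v 0), fun j => T (v j)))) := by
  obtain ⟨δ, δ0, hδD, Q₀, hnum⟩ := grad_num K d D CM heps
  refine ⟨δ, δ0, Q₀, ?_⟩
  intro Q MB k N₀ M M' hQ hQM hMB hQM' hM'1 hM'2 Ω Λ ζ α ε κ _ q L T Z a E X Pf Pg c s ξ n Θ P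
    hT hI hJ hG
  have hq := hT.law
  have h0 := hq.nonneg
  have P0 : ∀ v, 0 ≤ tup q L (D + 1) v := fun v => tup_nonneg h0 L _ v
  have hMC : M ≤ CM * Q := hMB.trans hT.hMB
  have hline : ∀ v, 0 < tup q L (D + 1) v → ∀ j, 0 < q (v j) ∧ L (v j) = L (v 0) := fun v hv j =>
    ⟨((tup_pos_iff h0 L _ v).1 hv).1 j, ((tup_pos_iff h0 L _ v).1 hv).2 j⟩
  refine ⟨fun i => ?_, ?_⟩
  · have h1 := CH_le_add P0 (fun v : Fin (D + 1 + 1) → Ω => cel (2 ^ (M' - Q))
      (fun b : Gr K d × Fin d =>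
        eval (fun i' => s (v i) i' + nd K b.1 i') (Pg (Z (v i)) b.2.succ)))
      (fun v => Cfl D M c P (L (v 0))) (fun v => (Z (v 0), (E (v 0), fun j => T (v j))))
    have h2 : CH (tup q L (D + 1)) (fun v => Cfl D M c P (L (v 0)))
        (fun v => (Z (v 0), (E (v 0), fun j => T (v j)))) ≤ 2 * (δ * Q) := by
      have e1 := (im_tup h0 L (D + 1) 0).CH (fun ω => Cfl D M c P (L ω))
        (fun ω => (E ω, Key M Z a Pf ω))
      have e2 := cf_few h0 hI hJ
      rw [← e1] at e2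
      refine (CH_mono_cond P0 fun v v' hv hv' h => ?_).trans e2
      obtain ⟨f1, f2⟩ := Prod.ext_iff.1 h
      have f1' : Z (v 0) = Z (v' 0) := f1
      refine Prod.ext (Prod.ext_iff.1 f2).1 ?_
      show Key M Z a Pf (v 0) = Key M Z a Pf (v' 0)
      unfold Key
      rw [f1', hT.Za _ _ (hline v hv 0).1 (hline v' hv' 0).1 f1']
    have h3 : CH (tup q L (D + 1)) (fun v => cel (2 ^ (M' - Q)) (fun b : Gr K d × Fin d =>
          eval (fun i' => s (v i) i' + nd K b.1 i') (Pg (Z (v i)) b.2.succ)))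
        (fun v => (Cfl D M c P (L (v 0)), (Z (v 0), (E (v 0), fun j => T (v j))))) ≤
        2 * (δ * Q) + (Real.log 2 + (Real.log (2 * gE K d D δ Q + 1) +
          δ * Real.log (4 * (2 ^ M * 2 ^ (δ * Q) + 1) + 1))) +
        (K + 1) ^ d * d * Real.log (2 * (iC K d + 1) + 1) := by
      have e1 := (im_tup h0 L (D + 1) i).CH (fun ω => cel (2 ^ (M' - Q))
        (fun b : Gr K d × Fin d => eval (fun i' => s ω i' + nd K b.1 i') (Pg (Z ω) b.2.succ)))
        (fun ω => (Cfl D M c P (L ω), (E ω, T ω)))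
      have e2 := grad_one (M' := M') hT hI hG
      rw [← e1] at e2
      refine (CH_mono_cond P0 fun v v' hv hv' h => ?_).trans e2
      obtain ⟨f1, f2⟩ := Prod.ext_iff.1 h
      obtain ⟨f3, f4⟩ := Prod.ext_iff.1 f2
      obtain ⟨f5, f6⟩ := Prod.ext_iff.1 f4
      have g1 : Cfl D M c P (L (v 0)) = Cfl D M c P (L (v' 0)) := f1
      have g2 : E (v 0) = E (v' 0) := f5
      have g3 : T (v i) = T (v' i) := congrFun f6 i
      have g4 : E (v i) = E (v 0) := hT.LE _ _ (hline v hv i).1 (hline v hv 0).1 (hline v hv i).2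
      have g5 : E (v' i) = E (v' 0) :=
        hT.LE _ _ (hline v' hv' i).1 (hline v' hv' 0).1 (hline v' hv' i).2
      show (Cfl D M c P (L (v i)), (E (v i), T (v i))) =
        (Cfl D M c P (L (v' i)), (E (v' i), T (v' i)))
      rw [(hline v hv i).2, (hline v' hv' i).2, g4, g5, g1, g2, g3]
    have h4 := hnum Q M hQ hMC
    linarith
  · have h1 := tup_times hq L hT.Tlt hT.Tfull D (fun ω => (Z ω, E ω)) (xd k L ξ)
    have h2 := hT.full
    have h3 : CH (tup q L (D + 1)) (fun v => xd k L ξ (v 0))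
        (fun v => ((fun j : Fin (D + 1) => T (v j.succ)), (Z (v 0), E (v 0)))) ≤
        CH (tup q L (D + 1)) (fun v => xd k L ξ (v 0))
          (fun v => (Z (v 0), (E (v 0), fun j => T (v j)))) := by
      refine CH_mono_cond P0 fun v v' hv hv' h => ?_
      obtain ⟨f1, f2⟩ := Prod.ext_iff.1 h
      obtain ⟨f3, f4⟩ := Prod.ext_iff.1 f2
      have f3' : Z (v 0) = Z (v' 0) := f3
      refine Prod.ext f3 (Prod.ext f4 ?_)
      funext j
      show T (v j) = T (v' j)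
      refine Fin.cases ?_ (fun j' => ?_) j
      · exact hT.ZT _ _ (hline v hv 0).1 (hline v' hv' 0).1 f3'
      · exact congrFun f1 j'
    have hQ0 : (0 : ℝ) ≤ Q := Nat.cast_nonneg Q
    have h4 : (D + 2) * δ * Q ≤ eps * Q := mul_le_mul_of_nonneg_right hδD hQ0
    have h5 : (D + 2) * δ * Q = (D + 1) * (δ * Q) + δ * Q := by ring
    linarith

end Pool.V1E
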